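import Pool.Agent.H151.TW.Ham

/-!
# MP_688fd0_co: connection sets with a central involution and two elements of order three

Let `A` be a symmetric generating set of the finite group `G` which contains a central involution
`z`, an element `b₁` of order three and an element `b₂` with `b₂ ^ 3 ∈ {1, z}` outside the subgroup
`⟨b₁, z⟩`. Then there is a closed listing sequence of elements of `A`: `Cay(G, A)` has a Hamiltonian
cycle. Nothing is assumed about the group and about the other elements of `A`.

In particular (`G = Q × C₂`) the prism over `Cay(Q, B)` has a Hamiltonian cycle whenever `B`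
contains two elements of order three which generate different subgroups.

Idea. By Hall's theorem the left cosets of `⟨b₁⟩` and `⟨b₂⟩` modulo `⟨z⟩` have a common transversal
`N`. Outside `N` the remaining edges of the two kinds form even alternating cycles, to which the
elements of `N` are added as detours; this gives a permutation of `Q = G/⟨z⟩` whose cycles are
unions of cosets of `⟨b₁⟩`. A parity argument shows that every union of cycles is left by many
links, so that a matching of links joins all cycles; in `G` the cycles are lifted so that all the
rungs `{x, xz}` which are needed are used, and they are merged along the squares over the links.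
-/

namespace Pool.Agent.Results.MP_688fd0_co.CentralInvolutionOrderThree

open Pool.Agent.R759.HC

universe u

/-- `a_1, …, a_n ∈ A`, where `n = |G|`, have pairwise distinct partial products
`a_1, a_1 a_2, …, a_1 ⋯ a_n`, the last of which is `1`. -/
def ClosedListing {G : Type u} [Group G] (A : Set G) (a : Fin (Nat.card G) → G) : Prop :=
  (∀ i, a i ∈ A) ∧
  Function.Injective (fun k : Fin (Nat.card G) => ((List.ofFn a).take (k.val + 1)).prod) ∧
  (List.ofFn a).prod = 1

theorem result {G : Type u} [Group G] [Finite G] (A : Set G) (hA : ∀ x ∈ A, x⁻¹ ∈ A)
    (hgen : Subgroup.closure A = ⊤) (z : G) (hzA : z ∈ A) (hz2 : orderOf z = 2)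
    (hz : ∀ g : G, g * z = z * g) (b₁ b₂ : G) (hb₁ : b₁ ∈ A) (hb₂ : b₂ ∈ A)
    (h1 : orderOf b₁ = 3) (h2 : b₂ ^ 3 = 1 ∨ b₂ ^ 3 = z)
    (h12 : b₂ ∉ Subgroup.closure ({b₁, z} : Set G)) :
    ∃ a : Fin (Nat.card G) → G, ClosedListing A a := by
  obtain ⟨ρ, hρ⟩ := Pool.Agent.H151.TW.ham_central A hA hgen z b₁ b₂ hzA hz2 hz hb₁ hb₂ h1 h2 h12
  exact listing_of_cyc hρ

end Pool.Agent.Results.MP_688fd0_co.CentralInvolutionOrderThree
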