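import Pool.Agent.H268.CI.T16
import Pool.Graph.R_pool_sql_team_seeded_620a6dc7.H761J.Ham4

/-!
# Listing sequences in groups in which every element centralises or inverts the commutator subgroup

Let `G` be a finite group such that every `g ∈ G` either centralises the commutator subgroup `G'`
or inverts it (`g x g⁻¹ = x⁻¹` for all `x ∈ G'`). Then for every nonempty symmetric generating set
`A` there is a listing sequence of elements of `A`; moreover the ends of the Hamiltonian paths
which start at `1` generate `G`.

Proof. Let `C` be the centraliser of `G'`, a subgroup of index at most two which contains the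
abelian group `G'`. Every subgroup of `G'` is normal in `G`. For a symmetric set `R` let `Ends R`
be the set of the ends of the Hamiltonian paths of `Cay(⟨R⟩, R)` which start at `1`. By induction on
the order of `⟨R⟩` one shows that `Ends R` is not empty, generates `⟨R⟩`, and that
(P2) for every subgroup `E` which meets `⟨R⟩` in a subgroup of index two, if some `r ≠ 1` in
`R` lies in `E`, then some end lies in `E`.

(1) Walks (`walk_thm`). Let `H` be a subgroup with a symmetric generating set `W`, and `a ∉ H`, where
`a ∉ C` or `⟨H, a⟩ ≤ C`. There is a sequence of elements `w a`, `w a⁻¹` (`w ∈ W`) whose partial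
products represent every left coset of `H` in `⟨H, a⟩` once. For one `w` with `f = w⁻¹ a⁻¹ w a`
the cosets are `a ^ i f ^ j H`; for an even number of levels one uses a zigzag between two
levels at a time, for an odd number of levels and inverting `w`, `a` the element `w a`
centralises `f`, `f` has odd order modulo `H` and a walk around the levels exists; then the
other elements of `W` are added one by one. The walk leaves the positions in a subgroup `E ≥ H`
with `a ∉ E`, `a² ∈ E` which is normalised by `a` only by steps `w a`.

(2) Running through the cosets along Hamiltonian paths of `H` gives Hamiltonian paths of `⟨H, a⟩`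
with ends `t w`, `t` fixed, `w ∈ Ends R'`; a rotation of the path at its end along the edge `a`
gives further ends `t w a⁻¹ s` with `s ∈ R'` (`ext_thm`).

(3) (P2), and the fact that the ends generate, follow by a case analysis (`p2_step`,
`normal_case`, `nonnormal_case`): a maximal subgroup `E` which contains all ends is either normal
of index two or satisfies `r² ∈ E` for all inverting `r` and `G' ⊄ E`.
-/

namespace Pool.Agent.Results.MP_688fd0_co.CentraliseOrInvert

universe u

/-- `a_1, …, a_n ∈ A`, where `n = |G|`, have pairwise distinct partial products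
`a_1, a_1 a_2, …, a_1 ⋯ a_n`. -/
def Listing {G : Type u} [Group G] (A : Set G) (a : Fin (Nat.card G) → G) : Prop :=
  (∀ i, a i ∈ A) ∧
  Function.Injective (fun k : Fin (Nat.card G) => ((List.ofFn a).take (k.val + 1)).prod)

/-- a Hamiltonian path from `1` gives a listing sequence with the same list of steps after the
first one -/
theorem listing_of_cov' {G : Type u} [Group G] [Finite G] {A : Set G} {l : List G}
    (hlA : ∀ x ∈ l, x ∈ A)
    (hl : Pool.Agent.H761J.Ham.Cov ⊥ l (Set.univ : Set G)) {x : G} (hx : x ∈ A) :
    ∃ a, Listing A a ∧ (List.ofFn a).tail = l := by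
  classical
  have hnd : (Pool.Agent.H761J.Ham.pre l).Nodup := by
    refine hl.dis.imp ?_
    intro p q h e
    apply h
    rw [e, inv_mul_cancel]
    exact Subgroup.one_mem _
  have hall : ∀ g, g ∈ Pool.Agent.H761J.Ham.pre l := by
    intro g
    obtain ⟨p, hp, h⟩ := (hl.cov g).1 (Set.mem_univ g)
    rw [Subgroup.mem_bot] at h
    have e : p = g := by
      have := mul_eq_one_iff_inv_eq.1 h
      rw [inv_inv] at this
      exact this
    rw [← e]; exact hp
  have hcard : (x :: l).length = Nat.card G := by
    have : Fintype G := Fintype.ofFinite G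
    rw [Nat.card_eq_fintype_card, List.length_cons, ← Pool.Agent.H761J.Ham.pre_length l,
      ← List.toFinset_card_of_nodup hnd, ← Finset.card_univ]
    congr 1
    ext g
    simp [hall g]
  have hof : List.ofFn (fun i : Fin (Nat.card G) =>
      (x :: l)[i.val]'(by rw [hcard]; exact i.isLt)) = x :: l := by
    apply List.ext_getElem
    · rw [List.length_ofFn, hcard]
    · intro n h1 h2
      rw [List.getElem_ofFn]
  refine ⟨fun i => (x :: l)[i.val]'(by rw [hcard]; exact i.isLt), ⟨?_, ?_⟩, ?_⟩
  · intro i
    have h := List.getElem_mem (l := x :: l) (n := i.val) (by rw [hcard]; exact i.isLt)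
    have hmemA : ∀ y ∈ x :: l, y ∈ A := by
      intro y hy
      rcases List.mem_cons.1 hy with hy | hy
      · rw [hy]; exact hx
      · exact hlA _ hy
    exact hmemA _ h
  · rw [hof]
    intro i j hij
    simp only [List.take_succ_cons, List.prod_cons, mul_left_cancel_iff] at hij
    have hi : i.val < (Pool.Agent.H761J.Ham.pre l).length := by
      rw [Pool.Agent.H761J.Ham.pre_length, ← List.length_cons (a := x), hcard]; exact i.isLt
    have hj : j.val < (Pool.Agent.H761J.Ham.pre l).length := by
      rw [Pool.Agent.H761J.Ham.pre_length, ← List.length_cons (a := x), hcard]; exact j.isLt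
    rw [← Pool.Agent.H761J.Ham.pre_getElem l i.val hi,
      ← Pool.Agent.H761J.Ham.pre_getElem l j.val hj] at hij
    exact Fin.ext ((List.Nodup.getElem_inj_iff hnd).1 hij)
  · rw [hof, List.tail_cons]

theorem result {G : Type u} [Group G] [Finite G]
    (hG : ∀ g : G, (∀ x ∈ commutator G, g * x * g⁻¹ = x) ∨
      (∀ x ∈ commutator G, g * x * g⁻¹ = x⁻¹))
    (A : Set G) (hne : A.Nonempty) (hA : ∀ x ∈ A, x⁻¹ ∈ A) (hgen : Subgroup.closure A = ⊤) :
    (∃ a : Fin (Nat.card G) → G, Listing A a) ∧
    ∀ E : Subgroup G, E ≠ ⊤ →
      ∃ a : Fin (Nat.card G) → G, Listing A a ∧ (List.ofFn a).tail.prod ∉ E := by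
  obtain ⟨x, hx⟩ := hne
  have hg := Pool.Agent.H268.CI.good_all (Pool.Agent.H268.CI.cd_of hG) _ A hA rfl
  have key : ∀ w ∈ Pool.Agent.H761J.Nil.Ends A, ∃ a : Fin (Nat.card G) → G, Listing A a ∧
      (List.ofFn a).tail.prod = w := by
    rintro w ⟨l, hlA, hl, rfl⟩
    rw [hgen] at hl
    obtain ⟨a, h1, h2⟩ := listing_of_cov' hlA
      (hl.congr (fun g => ⟨fun _ => Set.mem_univ g, fun _ => Set.mem_univ g⟩)) hx
    exact ⟨a, h1, by rw [h2]⟩
  refine ⟨?_, ?_⟩
  · obtain ⟨w, hw⟩ := hg.ne
    obtain ⟨a, ha, -⟩ := key w hw
    exact ⟨a, ha⟩
  · intro E hE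
    by_contra hcon
    push Not at hcon
    apply hE
    rw [eq_top_iff, ← hgen, ← hg.gen, Subgroup.closure_le]
    intro w hw
    obtain ⟨a, ha, haw⟩ := key w hw
    rw [← haw]
    exact hcon a ha

end Pool.Agent.Results.MP_688fd0_co.CentraliseOrInvert
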