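import Mathlib
import Pool.Agent.H647.Kot.Closed
import Pool.Agent.H647.Kot.Block
import Pool.Agent.H647.Kot.EvenCube
import Pool.Agent.H647.Kot.Fours
import Pool.Agent.H647.Kot.LocalComm
import Pool.Agent.H647.Kot.LocalFour
import Pool.Agent.H647.Kot.LocalSub
import Pool.Graph.R_pool_sql_team_seeded_64922ed1.Results.MP_688fd0_co.NormalisingPair

/-!
# Listing sequences from subgroups of even type
-/

namespace Pool.Agent.Results.MP_688fd0_co.EvenTypeSubgroups

/-- The sequence `a_1, ..., a_n` (here `a 0, ..., a (n-1)`) is *listing*: the partial products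
`a_1 ⋯ a_k`, `1 ≤ k ≤ n`, are pairwise distinct. -/
def IsListing {G : Type*} [Group G] {n : ℕ} (a : Fin n → G) : Prop :=
  Function.Injective (fun k : Fin n => ((List.ofFn a).take (k.val + 1)).prod)

/-- There is a listing sequence `a_1, ..., a_n` (`n = |G|`) of elements of `A`. -/
def HasListing {G : Type*} [Group G] (A : Set G) : Prop :=
  ∃ a : Fin (Nat.card G) → G, (∀ i, a i ∈ A) ∧ IsListing a

/-- There is a listing sequence `a_1, ..., a_n` (`n = |G|`) of elements of `A` with
`a_1 ⋯ a_n = 1`. -/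
def HasClosedListing {G : Type*} [Group G] (A : Set G) : Prop :=
  ∃ a : Fin (Nat.card G) → G, (∀ i, a i ∈ A) ∧ IsListing a ∧ (List.ofFn a).prod = 1

/-- `A` is a symmetric generating set. -/
structure IsSymmGen {G : Type*} [Group G] (A : Set G) : Prop where
  symmetric : ∀ x ∈ A, x⁻¹ ∈ A
  generates : Subgroup.closure A = ⊤

/-- `L` is a proper subgroup of `H`, and `A` contains `H ∖ L`. -/
def ContainsCompl {G : Type*} [Group G] (A : Set G) (H L : Subgroup G) : Prop :=
  L < H ∧ ∀ x ∈ H, x ∉ L → x ∈ A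

/-- `H` is generated by pairwise commuting elements of `A` of orders two and four (or one). -/
def CommutingFours {G : Type*} [Group G] (A : Set G) (H : Subgroup G) : Prop :=
  ∃ X ⊆ A, (∀ x ∈ X, x ^ 4 = 1) ∧ (∀ x ∈ X, ∀ y ∈ X, x * y = y * x) ∧ Subgroup.closure X = H

/-- The pairing property: for every pairing `f` of the elements of `H` there is a pairing `g` along
edges of `Cay(H, A ∩ H)` such that `f` and `g` together connect `H` (so form a cycle). -/
def PairingProperty {G : Type*} [Group G] (A : Set G) (H : Subgroup G) : Prop :=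
  ∀ f : H → H, (∀ x, f (f x) = x ∧ f x ≠ x) →
    ∃ g : H → H, (∀ x, g (g x) = x ∧ g x ≠ x) ∧ (∀ x, ((x⁻¹ * g x : H) : G) ∈ A) ∧
      ∀ x y : H, Relation.EqvGen (fun a b => b = f a ∨ b = g a) x y

/-- `|H|` is even, and `H` has the pairing property, or is generated by commuting elements of `A` of
orders two and four, or `A` contains the complement in `H` of a proper subgroup. -/
def EvenType {G : Type*} [Group G] (A : Set G) (H : Subgroup G) : Prop :=
  Even (Nat.card H) ∧ (PairingProperty A H ∨ CommutingFours A H ∨ ∃ L, ContainsCompl A H L)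

/-- The set `S` has a pairing along edges of `Cay(G, A)`. -/
def Paired {G : Type*} [Group G] (A S : Set G) : Prop :=
  ∃ f : G → G, ∀ x ∈ S, f x ∈ S ∧ f x ≠ x ∧ f (f x) = x ∧ x⁻¹ * f x ∈ A

/-- `|P| ≥ 3`, and any two elements of `P` can be removed such that the rest of `P` has a pairing
along edges of `Cay(G, A)`; for instance `|P|` is even and `A` contains `P ∖ {1}`. -/
def Robust {G : Type*} [Group G] (A : Set G) (P : Subgroup G) : Prop :=
  3 ≤ Nat.card P ∧ ((Even (Nat.card P) ∧ ∀ p ∈ P, p ≠ 1 → p ∈ A) ∨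
    ∀ u ∈ P, ∀ v ∈ P, u ≠ v → Paired A ((P : Set G) \ {u, v}))

/-- The element `a` of `N` is locally paired: there is an element `p` of order two or four in
`A ∩ P` such that `a p` has order at most `k`; or there is an involution `p` in `A ∩ P` such that
`a p a⁻¹ p` has order at most `k / 2` or `a⁻¹ p a` is in `A ∩ P`; or `a` is in a subgroup `K` of `N`
with `P ≤ K`, generated by `A ∩ K` and of order at most `k |P|`; or, more generally, some union
`v_1 P ∪ ⋯ ∪ v_m P`, `m ≤ k`, of left cosets of `P` in `N` has a pairing `φ` along edges in which `1`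
is paired with `a`. -/
def LocallyPaired {G : Type*} [Group G] (A : Set G) (N P : Subgroup G) (k : ℕ) (a : G) : Prop :=
  (∃ p ∈ P, p ∈ A ∧ p ≠ 1 ∧ p ^ 4 = 1 ∧ orderOf (a * p) ≤ k) ∨
  (∃ p ∈ P, p ∈ A ∧ p ≠ 1 ∧ p * p = 1 ∧
    (2 * orderOf (a * p * a⁻¹ * p) ≤ k ∨ (a⁻¹ * p * a ∈ P ∧ a⁻¹ * p * a ∈ A))) ∨
  (∃ K : Subgroup G, P ≤ K ∧ K ≤ N ∧ a ∈ K ∧ Subgroup.closure (A ∩ K) = K ∧
    Nat.card K ≤ k * Nat.card P) ∨
  ∃ (V : Finset G) (φ : G → G), V.card ≤ k ∧ (∀ v ∈ V, v ∈ N) ∧ (∃ v ∈ V, v ∈ P) ∧ φ 1 = a ∧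
    ∀ z, (∃ v ∈ V, v⁻¹ * z ∈ P) →
      (∃ v ∈ V, v⁻¹ * φ z ∈ P) ∧ φ z ≠ z ∧ φ (φ z) = z ∧ z⁻¹ * φ z ∈ A

/-- The conditions on the set `S` and the subgroups `H` and `N = ⟨H, S⟩`. -/
def Linked {G : Type*} [Group G] (A S : Set G) (H N : Subgroup G) : Prop :=
  -- (a) `S` generates a subgroup of even order at most `|H|`, or of even type
  (Even (Nat.card (Subgroup.closure S)) ∧
    (Nat.card (Subgroup.closure S) ≤ Nat.card H ∨ EvenType A (Subgroup.closure S))) ∨
  -- (b) `H` is abelian and generated by `A ∩ H`, and has a small robust subgroup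
  ((∀ x ∈ H, ∀ y ∈ H, x * y = y * x) ∧ Subgroup.closure (A ∩ H) = H ∧
    ∃ P : Subgroup G, P ≤ H ∧ 18 * Nat.card P ≤ Nat.card H ∧ Robust A P) ∨
  -- (c) the elements of `S ∖ H` are locally paired for a small subgroup of `H`
  (∃ (P : Subgroup G) (k : ℕ), P ≤ H ∧ 2 ≤ k ∧ 2 * k * (2 * k - 1) * Nat.card P ≤ Nat.card H ∧
    Paired A P ∧ ∀ a ∈ S, a ∉ H → LocallyPaired A N P k a)

open Pool.Agent.X267.Ham (lift_listing)
open Pool.Agent.H647.Kot

lemma EvenType.pp {G : Type} [Group G] [Finite G] {A : Set G} {H : Subgroup G}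
    (h : EvenType A H) (hA : ∀ x ∈ A, x⁻¹ ∈ A) : PP A H := by
  rcases h with ⟨he, hp | ⟨X, hXA, h4, hc, rfl⟩ | ⟨L, hL, hLA⟩⟩
  · exact ⟨he, hp⟩
  · exact pp_fours hA hXA h4 hc he
  · exact pp_compl he L (fun h5 => hL.not_ge h5) hLA

lemma gen_aux {G : Type*} [Group G] (k : Set G) (K : Subgroup G) (h : Subgroup.closure k = K) :
    Subgroup.closure {x : K | (x : G) ∈ k} = ⊤ := by
  subst h
  exact Subgroup.closure_closure_coe_preimage

lemma gen_restrict {G : Type*} [Group G] {A : Set G} {K N : Subgroup G} (hKN : K ≤ N)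
    (h : Subgroup.closure (A ∩ K) = K) :
    Subgroup.closure {x : K.subgroupOf N | ((x : N) : G) ∈ A} = ⊤ := by
  have h1 : Subgroup.closure ({x : N | (x : G) ∈ A} ∩ (K.subgroupOf N : Set N)) =
      K.subgroupOf N := by
    apply Subgroup.map_injective N.subtype_injective
    rw [MonoidHom.map_closure, Subgroup.map_subgroupOf_eq_of_le hKN]
    conv_rhs => rw [← h]
    congr 1
    ext x
    constructor
    · rintro ⟨y, ⟨hy1, hy2⟩, rfl⟩
      exact ⟨hy1, Subgroup.mem_subgroupOf.1 hy2⟩
    · rintro ⟨hx1, hx2⟩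
      exact ⟨⟨x, hKN hx2⟩, ⟨hx1, Subgroup.mem_subgroupOf.2 hx2⟩, rfl⟩
  have h2 := gen_aux _ _ h1
  have h3 : {x : K.subgroupOf N | ((x : N) : G) ∈ A} =
      {x : K.subgroupOf N | (x : N) ∈ ({x : N | (x : G) ∈ A} ∩ (K.subgroupOf N : Set N))} := by
    ext x
    exact ⟨fun hx => ⟨hx, x.2⟩, fun hx => hx.1⟩
  rw [h3]
  exact h2

lemma restrict_lt {G : Type*} [Group G] {L H N : Subgroup G} (hL : L < H) (hN : H ≤ N) :
    L.subgroupOf N < H.subgroupOf N := by
  refine lt_of_le_of_ne (Subgroup.comap_mono hL.le) ?_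
  intro h
  apply hL.not_ge
  intro x hx
  have h1 : (⟨x, hN hx⟩ : N) ∈ H.subgroupOf N := Subgroup.mem_subgroupOf.2 hx
  rw [← h] at h1
  exact Subgroup.mem_subgroupOf.1 h1

lemma restrict_sup {G : Type*} [Group G] {H K N : Subgroup G} (h : H ⊔ K = N) :
    H.subgroupOf N ⊔ K.subgroupOf N = ⊤ := by
  have hHN : H ≤ N := h ▸ le_sup_left
  have hKN : K ≤ N := h ▸ le_sup_right
  apply Subgroup.map_injective N.subtype_injective
  rw [Subgroup.map_sup, Subgroup.map_subgroupOf_eq_of_le hHN,
    Subgroup.map_subgroupOf_eq_of_le hKN, h, ← MonoidHom.range_eq_map, Subgroup.range_subtype]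

/-- pairings restrict to subgroups -/
lemma restrict_paired {G : Type*} [Group G] {A S : Set G} {N : Subgroup G}
    (hS : ∀ x ∈ S, x ∈ N) (h : Paired A S) :
    PMon {x : N | (x : G) ∈ A} {x : N | (x : G) ∈ S} := by
  classical
  obtain ⟨f, hf⟩ := h
  refine ⟨fun x => if h : f x ∈ N then ⟨f x, h⟩ else x, ?_⟩
  intro x hx
  obtain ⟨h1, h2, h3, h4⟩ := hf x hx
  have h5 : f x ∈ N := hS _ h1
  have h6 : f (f x) ∈ N := by rw [h3]; exact x.2
  simp only [h5, dif_pos]
  refine ⟨h1, fun h => h2 (congrArg Subtype.val h), ?_, h4⟩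
  simp only [h6, dif_pos]
  exact Subtype.ext h3

/-- a subgroup with a pairing has even order -/
lemma paired_even {G : Type*} [Group G] [Finite G] {A : Set G} {P : Subgroup G}
    (h : Paired A P) : Even (Nat.card P) := by
  classical
  have : Fintype G := Fintype.ofFinite G
  obtain ⟨f, hf⟩ := h
  have h1 : ∑ _x ∈ Finset.univ.filter (· ∈ P), (1 : ZMod 2) = 0 := by
    refine Finset.sum_involution (fun x _ => f x) ?_ ?_ ?_ ?_
    · intro x _
      decide
    · intro x hx _
      exact (hf x (by simpa using hx)).2.1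
    · intro x hx
      simpa using (hf x (by simpa using hx)).1
    · intro x hx
      exact (hf x (by simpa using hx)).2.2.1
  rw [Finset.sum_const, nsmul_eq_mul, mul_one, ZMod.natCast_eq_zero_iff_even] at h1
  rw [Nat.card_eq_fintype_card, Fintype.card_subtype]
  exact h1

lemma robust_paired {G : Type*} [Group G] [Finite G] {A : Set G} {P : Subgroup G}
    (h : Robust A P) : ∀ u ∈ P, ∀ v ∈ P, u ≠ v → Paired A ((P : Set G) \ {u, v}) := by
  rcases h.2 with ⟨he, hP⟩ | h'
  · intro u hu v hv huv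
    have h1 : cellOf P 1 = (P : Set G) := by
      ext x
      simp [cellOf]
    have h2 := PMon.cell_two (r := 1) hP he (by rw [h1]; exact hu) (by rw [h1]; exact hv) huv
    rw [h1] at h2
    exact h2
  · exact h'

/-- **Linked subgroups have a Hamiltonian cycle.** -/
theorem linked_closed {G : Type} [Group G] [Finite G] {A S : Set G} (hA : ∀ x ∈ A, x⁻¹ ∈ A)
    {H N : Subgroup G} (hH : EvenType A H) (hSA : S ⊆ A) (hN : H ⊔ Subgroup.closure S = N)
    (h : Linked A S H N) :
    Pool.Agent.X267.Ham.HasClosedListing {x : N | (x : G) ∈ A} := by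
  have hHN : H ≤ N := hN ▸ le_sup_left
  have hKN : Subgroup.closure S ≤ N := hN ▸ le_sup_right
  have hSN : ∀ a ∈ S, a ∈ N := fun a ha => hKN (Subgroup.subset_closure ha)
  rcases h with ⟨hKe, hK⟩ | ⟨hcomm, hHA, P, hPH, h18, hrob⟩ | ⟨P, k, hPH, hk, hb, hP0, hloc⟩
  · have hKA : Subgroup.closure (A ∩ Subgroup.closure S) = Subgroup.closure S := by
      apply le_antisymm
      · rw [Subgroup.closure_le]
        exact Set.inter_subset_right
      · exact Subgroup.closure_mono fun x hx => ⟨hSA hx, Subgroup.subset_closure hx⟩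
    rcases hK with hK | hK
    · refine closed_block _ (fun x hx => hA x hx) (H.subgroupOf N)
        ((Subgroup.closure S).subgroupOf N) (restrict_sup hN) ((hH.pp hA).restrict hHN)
        (gen_restrict hKN hKA) ?_ ?_
      · rw [card_restrict hKN]
        exact hKe
      · rw [card_restrict hKN, card_restrict hHN]
        exact hK
    · exact closed_of_pp _ _ _ (restrict_sup hN) ((hH.pp hA).restrict hHN)
        ((hK.pp hA).restrict hKN)
  · have hPN : P ≤ N := hPH.trans hHN
    have hNA : Subgroup.closure (A ∩ N) = N := by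
      apply le_antisymm
      · rw [Subgroup.closure_le]
        exact Set.inter_subset_right
      · refine le_trans hN.ge (sup_le ?_ ?_)
        · rw [← hHA]
          exact Subgroup.closure_mono fun x hx => ⟨hx.1, hHN hx.2⟩
        · exact Subgroup.closure_mono fun x hx => ⟨hSA hx, hSN x hx⟩
    have hgen : Subgroup.closure {x : N | (x : G) ∈ A} = ⊤ := by
      have h1 := gen_aux _ _ hNA
      have h2 : {x : N | (x : G) ∈ A} = {x : N | (x : G) ∈ A ∩ (N : Set G)} := by
        ext x
        exact ⟨fun hx => ⟨hx, x.2⟩, fun hx => hx.1⟩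
      rw [h2]
      exact h1
    have h18' : 18 * Nat.card (P.subgroupOf N) ≤ Nat.card (H.subgroupOf N) := by
      rw [card_restrict hPN, card_restrict hHN]
      exact h18
    have hPH' : P.subgroupOf N ≤ H.subgroupOf N := Subgroup.comap_mono hPH
    have hne : {x : H.subgroupOf N | ((x : N) : G) ∈ A}.Nonempty := by
      by_contra h0
      rw [Set.not_nonempty_iff_eq_empty] at h0
      have h1 := gen_restrict hHN hHA
      rw [h0, Subgroup.closure_empty] at h1
      have h2 : Nat.card (H.subgroupOf N) = 1 := by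
        rw [← Subgroup.card_top (G := H.subgroupOf N), ← h1, Subgroup.card_bot]
      have h3 : 0 < Nat.card (P.subgroupOf N) := Nat.card_pos
      omega
    obtain ⟨t, r, x, hpath⟩ := exists_path {x : N | (x : G) ∈ A} (fun x hx => hA x hx)
      (H.subgroupOf N) (P.subgroupOf N) (by
        intro a ha b hb
        exact Subtype.ext (hcomm a (Subgroup.mem_subgroupOf.1 ha) b (Subgroup.mem_subgroupOf.1 hb)))
      (gen_restrict hHN hHA) hne hPH'
    refine closed_even _ (fun x hx => hA x hx) hgen (H.subgroupOf N) (P.subgroupOf N)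
      ((hH.pp hA).restrict hHN) hPH' h18' ?_ ?_ hpath
    · rw [card_restrict hPN]
      exact hrob.1
    · intro u hu v hv huv
      have h1 := restrict_paired (N := N) (fun x hx => hPN hx.1) (robust_paired hrob u
        (Subgroup.mem_subgroupOf.1 hu) v (Subgroup.mem_subgroupOf.1 hv)
        (fun h => huv (Subtype.ext h)))
      have h2 : {x : N | (x : G) ∈ (P : Set G) \ {(u : G), (v : G)}} =
          ((P.subgroupOf N : Subgroup N) : Set N) \ {u, v} := by
        ext x
        constructor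
        · rintro ⟨h3, h4⟩
          refine ⟨Subgroup.mem_subgroupOf.2 h3, ?_⟩
          rintro (rfl | h5)
          · exact h4 (Or.inl rfl)
          · rw [Set.mem_singleton_iff] at h5
            subst h5
            exact h4 (Or.inr rfl)
        · rintro ⟨h3, h4⟩
          refine ⟨Subgroup.mem_subgroupOf.1 h3, ?_⟩
          rintro (h5 | h5)
          · exact h4 (Or.inl (Subtype.ext h5))
          · exact h4 (Or.inr (Subtype.ext h5))
      rwa [h2] at h1
  · have hPN : P ≤ N := hPH.trans hHN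
    refine closed_local {x : N | (x : G) ∈ A} {x : N | (x : G) ∈ S ∧ (x : G) ∉ H}
      (H.subgroupOf N) (P.subgroupOf N) ?_ ((hH.pp hA).restrict hHN) ?_ (by omega : 1 ≤ k) ?_ ?_
    · intro M hHM hSM
      have h1 : N ≤ M.map N.subtype := by
        refine le_trans hN.ge ?_
        rw [sup_le_iff, Subgroup.closure_le]
        constructor
        · intro x hx
          exact ⟨⟨x, hHN hx⟩, hHM (Subgroup.mem_subgroupOf.2 hx), rfl⟩
        · intro x hx
          by_cases hxH : x ∈ H
          · exact ⟨⟨x, hHN hxH⟩, hHM (Subgroup.mem_subgroupOf.2 hxH), rfl⟩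
          · exact ⟨⟨x, hSN x hx⟩, hSM ⟨hx, hxH⟩, rfl⟩
      rw [eq_top_iff]
      intro x _
      obtain ⟨y, hy, hyx⟩ := h1 x.2
      rwa [← Subtype.ext hyx]
    · have h1 := restrict_paired (N := N) (fun x hx => hPN hx) hP0
      exact h1
    · rw [card_restrict hPN, card_restrict hHN]
      exact hb
    · rintro ⟨a, haN⟩ ⟨haS, haH⟩
      have haH' : a ∉ H := haH
      have haP : (⟨a, haN⟩ : N) ∉ P.subgroupOf N := fun h =>
        haH' (hPH (Subgroup.mem_subgroupOf.1 h))
      rcases hloc a haS haH' with ⟨p, hpP, hpA, hp1, hp4, h⟩ |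
        ⟨p, hpP, hpA, hp1, hp2, h | ⟨h3, h4⟩⟩ |
        ⟨K, hPK, hKN, haK, hKA, hK⟩ |
        ⟨V, φ, hV, hVN, ⟨v0, hv0, hv0P⟩, hφ1, hφ⟩
      · have h' : orderOf ((⟨a, haN⟩ : N) * ⟨p, hPN hpP⟩) ≤ k := by
          rw [← Subgroup.orderOf_coe]
          exact h
        by_cases hp2 : p * p = 1
        · exact local_of_order (A := {x : N | (x : G) ∈ A}) (P := P.subgroupOf N)
            (a := (⟨a, haN⟩ : N)) (p := (⟨p, hPN hpP⟩ : N)) (fun x hx => hA x hx) (hSA haS) haP
            (Subgroup.mem_subgroupOf.2 hpP) hpA (fun h => hp1 (congrArg Subtype.val h))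
            (Subtype.ext hp2) hk h'
        · have hp4' : (⟨p, hPN hpP⟩ : N) ^ 4 = 1 := Subtype.ext hp4
          have hp2' : (⟨p, hPN hpP⟩ : N) * ⟨p, hPN hpP⟩ ≠ 1 :=
            fun h => hp2 (congrArg Subtype.val h)
          have hle : Subgroup.zpowers (⟨p, hPN hpP⟩ : N) ≤ P.subgroupOf N := by
            rw [Subgroup.zpowers_le]
            exact Subgroup.mem_subgroupOf.2 hpP
          exact local_mono hle (paired_of_four (A := {x : N | (x : G) ∈ A})
              (fun x hx => hA x hx) hpA hp4' hp2')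
            (local_of_order_four (A := {x : N | (x : G) ∈ A}) (fun x hx => hA x hx) (hSA haS)
              (fun h => haP (hle h)) hpA hp4' hp2' hk h')
      · refine local_of_comm (A := {x : N | (x : G) ∈ A}) (P := P.subgroupOf N)
          (a := (⟨a, haN⟩ : N)) (p := (⟨p, hPN hpP⟩ : N)) (fun x hx => hA x hx) (hSA haS) haP
          (Subgroup.mem_subgroupOf.2 hpP) hpA (fun h => hp1 (congrArg Subtype.val h))
          (Subtype.ext hp2) ?_
        rw [← Subgroup.orderOf_coe]
        exact h
      · exact local_of_conj (A := {x : N | (x : G) ∈ A}) (P := P.subgroupOf N)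
          (a := (⟨a, haN⟩ : N)) (p := (⟨p, hPN hpP⟩ : N)) (fun x hx => hA x hx) (hSA haS) haP
          (Subgroup.mem_subgroupOf.2 hpP) hpA (fun h => hp1 (congrArg Subtype.val h))
          (Subtype.ext hp2) (Subgroup.mem_subgroupOf.2 h3) h4 hk
      · have hKgen : Subgroup.closure ({x : N | (x : G) ∈ A} ∩ (K.subgroupOf N : Set N)) =
            K.subgroupOf N := by
          apply Subgroup.map_injective N.subtype_injective
          rw [MonoidHom.map_closure, Subgroup.map_subgroupOf_eq_of_le hKN]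
          conv_rhs => rw [← hKA]
          congr 1
          ext x
          constructor
          · rintro ⟨y, ⟨hy1, hy2⟩, rfl⟩
            exact ⟨hy1, Subgroup.mem_subgroupOf.1 hy2⟩
          · rintro ⟨hx1, hx2⟩
            exact ⟨⟨x, hKN hx2⟩, ⟨hx1, Subgroup.mem_subgroupOf.2 hx2⟩, rfl⟩
        have hKe : Even (Nat.card (K.subgroupOf N)) := by
          rw [card_restrict hKN]
          obtain ⟨c, hc⟩ := Subgroup.card_dvd_of_le hPK
          rw [hc]
          exact (paired_even hP0).mul_right c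
        refine local_of_subgroup (A := {x : N | (x : G) ∈ A}) (P := P.subgroupOf N)
          (K := K.subgroupOf N) (a := (⟨a, haN⟩ : N)) (fun x hx => hA x hx)
          (Subgroup.comap_mono hPK) hKgen hKe (hSA haS) (Subgroup.mem_subgroupOf.2 haK) ?_ ?_
        · intro h
          have h1 : a = 1 := congrArg Subtype.val h
          exact haH' (by rw [h1]; exact H.one_mem)
        · rw [card_restrict hKN, card_restrict hPN]
          exact hK
      · classical
        have hφN : ∀ z, (∃ v ∈ V, v⁻¹ * z ∈ P) → z ∈ N := by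
          rintro z ⟨v, hv, hz⟩
          have := N.mul_mem (hVN v hv) (hPN hz)
          rwa [mul_inv_cancel_left] at this
        refine ⟨V.subtype (· ∈ N), fun z => if h : φ z ∈ N then ⟨φ z, h⟩ else z, ?_, ?_, ?_, ?_⟩
        · rw [Finset.card_subtype]
          exact (Finset.card_filter_le _ _).trans hV
        · refine ⟨⟨v0, hVN v0 hv0⟩, by simpa using hv0, ?_⟩
          rw [mul_one]
          exact (P.subgroupOf N).inv_mem (Subgroup.mem_subgroupOf.2 hv0P)
        · have h1 : φ ((1 : N) : G) ∈ N := by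
            rw [Subgroup.coe_one, hφ1]
            exact haN
          show (if h : φ ((1 : N) : G) ∈ N then (⟨φ ((1 : N) : G), h⟩ : N) else 1) = _
          rw [dif_pos h1]
          exact Subtype.ext hφ1
        · rintro z ⟨v, hv, hz⟩
          have hvV : (v : G) ∈ V := by simpa using hv
          obtain ⟨⟨w, hw, hwz⟩, q2, q3, q4⟩ := hφ z ⟨v, hvV, Subgroup.mem_subgroupOf.1 hz⟩
          have h5 : φ z ∈ N := hφN _ ⟨w, hw, hwz⟩
          have h6 : φ (φ z) ∈ N := by rw [q3]; exact z.2
          simp only [h5, dif_pos]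
          refine ⟨⟨⟨w, hVN w hw⟩, by simpa using hw, Subgroup.mem_subgroupOf.2 hwz⟩,
            fun h => q2 (congrArg Subtype.val h), ?_, q4⟩
          simp only [h6, dif_pos]
          exact Subtype.ext q3

/-- **Listing sequences from subgroups of even type.** -/
theorem result {G : Type} [Group G] [Finite G] (A : Set G) (hA : IsSymmGen A) (S : Set G)
    (hSA : S ⊆ A) (H N : Subgroup G) (hH : EvenType A H) (hN : H ⊔ Subgroup.closure S = N)
    (hS : Linked A S H N) :
    HasClosedListing {x : N | (x : G) ∈ A} ∧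
    (N = ⊤ → HasClosedListing A) ∧
    (∀ _ : N.Normal, HasListing ((QuotientGroup.mk' N) '' A) → HasListing A) ∧
    (∀ _ : N.Normal, (∀ a ∈ A, ∀ g : G, ∃ a' ∈ A, (g⁻¹ * a * g)⁻¹ * a' ∈ N) → HasListing A) := by
  have hcl := linked_closed hA.symmetric hH hSA hN hS
  have hne : A.Nonempty := by
    obtain ⟨a, h1, _⟩ := hcl
    exact ⟨_, h1 ⟨0, Nat.card_pos⟩⟩
  have hlift : ∀ _ : N.Normal, HasListing ((QuotientGroup.mk' N) '' A) → HasListing A := by
    intro hnor hQ
    exact lift_listing N hcl hQ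
  refine ⟨hcl, ?_, hlift, ?_⟩
  · rintro rfl
    exact closed_congr (K := (⊤ : Subgroup G)) (K' := G) Subgroup.topEquiv
      (B := {x : (⊤ : Subgroup G) | (x : G) ∈ A}) (B' := A) (fun x hx => hx) hcl
  · intro hnor h
    refine hlift hnor ?_
    have hgen : Subgroup.closure ((QuotientGroup.mk' N) '' A) = ⊤ := by
      rw [← MonoidHom.map_closure, hA.generates, ← MonoidHom.range_eq_map]
      exact QuotientGroup.range_mk' N
    obtain ⟨a, h1, h2, _⟩ := NormalisingPair.conj_closed (hne.image (QuotientGroup.mk' N))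
      ⟨by
        rintro _ ⟨x, hx, rfl⟩
        exact ⟨x⁻¹, hA.symmetric x hx, map_inv _ _⟩, hgen⟩
      (by
        rintro _ ⟨x, hx, rfl⟩ g
        obtain ⟨g, rfl⟩ := QuotientGroup.mk'_surjective N g
        obtain ⟨a', ha', hN'⟩ := h x hx g
        refine ⟨a', ha', ?_⟩
        rw [← map_inv, ← map_mul, ← map_mul]
        exact (QuotientGroup.eq.2 hN').symm)
    exact ⟨a, h1, h2⟩

end Pool.Agent.Results.MP_688fd0_co.EvenTypeSubgroups
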