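import Pool.Agent.H178.CLd

/-!
# Problem MP_688fd0_co: listing sequences for generating sets of reflections of wreath products,
# and lifting of Hamiltonian paths from complements

Let `A` be a nonempty symmetric subset of a group which generates a finite group `⟨A⟩`.
`A` has a listing sequence in each of the following cases.

* `⟨A⟩` is a subgroup of `C ≀ S_n`, `n ≥ 4`, where the group `C` is nilpotent of class at most two
  (for instance abelian), it permutes the `n` letters transitively, and `A` consists of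
  reflections. These are all generating sets of reflections of all the irreducible imprimitive
  (complex) reflection groups `G(m, p, n)`, among them the Coxeter groups `B_n` and `D_n`.
* `⟨A⟩` is a subgroup of `C ≀ S_n`, `n ≥ 4`, the transposition-like elements of `A` connect all
  letters, and the other elements of `A` are arbitrary if `|C| < n`, or fix two letters.
* `⟨A⟩ = N ⋊ S_n` where `N` has class at most two, each letter except for the smallest one is the
  largest one moved by an odd permutation in `A`, and each element of `A` is a product of an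
  element of `N` which commutes with some odd permutation, and a permutation.
* `⟨A⟩ = N ⋊ K` where `N` has class at most two, `K` is arbitrary, and each left coset
  of `K ∩ a K a⁻¹` in `K`, `a ∈ A`, contains the end of a Hamiltonian path of `Cay(K, A ∩ K)`
  which begins in `1`.
* The same if `⟨A⟩ = K ∪ K a K` for one `a ∈ A` and all left cosets of `K ∩ a K a⁻¹` in `K` contain
  such an end (there is no group `N`).
-/

namespace Pool.Agent.Results.MP_688fd0_co.ReflectionsAndWreathProducts

open Equiv Subgroup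

universe u

/-- `a_1, …, a_m ∈ A`, where `m` is the order of `⟨A⟩`, have pairwise distinct partial products
`a_1, a_1 a_2, …, a_1 ⋯ a_m`; these are then all the elements of `⟨A⟩`. -/
def Listing {Γ : Type*} [Group Γ] (A : Set Γ) (a : Fin (Nat.card (closure A)) → Γ) : Prop :=
  (∀ i, a i ∈ A) ∧
    Function.Injective (fun k : Fin (Nat.card (closure A)) => ((List.ofFn a).take (k.val + 1)).prod)

/-- `A` is nonempty and symmetric and generates a finite group. -/
def SymmFin {Γ : Type*} [Group Γ] (A : Set Γ) : Prop :=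
  A.Nonempty ∧ (∀ a ∈ A, a⁻¹ ∈ A) ∧ (closure A : Set Γ).Finite

/-- There is a Hamiltonian path from `1` to `y` in the Cayley graph of `K` with respect to
`A ∩ K`: a list which contains each element of `K` once and nothing else, from `1` to `y`, such
that each element is obtained from the preceding one by right multiplication by an element
of `A`. -/
def HamEnd {Γ : Type*} [Group Γ] (A : Set Γ) (K : Subgroup Γ) (y : Γ) : Prop :=
  ∃ l : List Γ, l.Nodup ∧ (∀ g, g ∈ l ↔ g ∈ K) ∧ l.IsChain (fun g h => g⁻¹ * h ∈ A) ∧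
    l.head? = some 1 ∧ l.getLast? = some y

/-- Each left coset `k (K ∩ a K a⁻¹)` in `K` contains the end of a Hamiltonian path of
`Cay(K, A ∩ K)` which begins in `1`. -/
def EndsMeetCosets {Γ : Type*} [Group Γ] (A : Set Γ) (K : Subgroup Γ) (a : Γ) : Prop :=
  ∀ k ∈ K, ∃ c ∈ K, a⁻¹ * c * a ∈ K ∧ HamEnd A K (k * c)

/-- `N` has nilpotency class at most two: its commutators are central in `N`. -/
def ClassTwo {Γ : Type*} [Group Γ] (N : Subgroup Γ) : Prop :=
  ∀ x ∈ N, ∀ y ∈ N, ∀ z ∈ N, (x * y * x⁻¹ * y⁻¹) * z = z * (x * y * x⁻¹ * y⁻¹)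

/-- The wreath product of the group `C` and the symmetric group: the pairs `(v, σ)` with
`v : Fin n → C` and a permutation `σ`, which multiply like monomial matrices. -/
abbrev Wr (n : ℕ) (C : Type u) [Group C] := (Fin n → C) ⋊[mulAutArrow] Perm (Fin n)

/-- `(v, σ)` is like a transposition (a monomial involution which is a reflection): `σ` is the
transposition of `i` and `j`, `v i * v j = 1`, and the other values of `v` are `1`. -/
def SwapLike {n : ℕ} {C : Type u} [Group C] (a : Wr n C) (i j : Fin n) : Prop :=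
  i ≠ j ∧ a.right = swap i j ∧ a.left i * a.left j = 1 ∧ ∀ k, k ≠ i → k ≠ j → a.left k = 1

/-- `(v, σ)` fixes the letter `k`: `σ k = k` and `v k = 1`. -/
def FixesLetter {n : ℕ} {C : Type u} [Group C] (a : Wr n C) (k : Fin n) : Prop :=
  a.right k = k ∧ a.left k = 1

/-- The reflections of the wreath product: the transposition-like elements, and the diagonal
elements with exactly one value `≠ 1`. -/
def IsReflection {n : ℕ} {C : Type u} [Group C] (a : Wr n C) : Prop :=
  (∃ i j, SwapLike a i j) ∨ ∃ i, a.right = 1 ∧ a.left i ≠ 1 ∧ ∀ k, k ≠ i → a.left k = 1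

/-- **Listing sequences for sets of reflections, for wreath products, and for groups with a
complement.** -/
theorem result :
    -- (1) sets of reflections
    (∀ (n : ℕ) (C : Type u) [Group C] (A : Set (Wr n C)), 4 ≤ n →
      ClassTwo (⊤ : Subgroup C) → SymmFin A → (∀ a ∈ A, IsReflection a) →
      (∀ i j : Fin n, ∃ g ∈ closure A, g.right i = j) → ∃ a, Listing A a) ∧
    -- (2) subsets of wreath products
    (∀ (n : ℕ) (C : Type u) [Group C] (A : Set (Wr n C)), 4 ≤ n →
      ClassTwo (⊤ : Subgroup C) → SymmFin A →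
      (∀ i j, Relation.ReflTransGen (fun i j : Fin n => ∃ a ∈ A, SwapLike a i j) i j) →
      ((Finite C ∧ Nat.card C < n) ∨
        ∀ a ∈ A, ∃ k l, k ≠ l ∧ FixesLetter a k ∧ FixesLetter a l) → ∃ a, Listing A a) ∧
    -- (3) complements which are symmetric groups
    (∀ (n : ℕ) (Γ : Type u) [Group Γ] (A : Set Γ) (N : Subgroup Γ) (φ : Perm (Fin n) →* Γ),
      4 ≤ n → SymmFin A → N.Normal → ClassTwo N → Function.Injective φ →
      N ⊔ φ.range = ⊤ → N ⊓ φ.range = ⊥ →
      (∀ k : Fin n, 1 ≤ k.val →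
        ∃ σ, φ σ ∈ A ∧ Perm.sign σ = -1 ∧ σ k ≠ k ∧ ∀ i, k < i → σ i = i) →
      (∀ a ∈ A, ∃ x ∈ N, ∃ σ c : Perm (Fin n), a = x * φ σ ∧ Perm.sign c = -1 ∧
        x * φ c = φ c * x) → ∃ a, Listing A a) ∧
    -- (4) arbitrary complements
    (∀ (Γ : Type u) [Group Γ] (A : Set Γ) (N K : Subgroup Γ), SymmFin A → N.Normal →
      N ⊔ K = ⊤ → N ⊓ K = ⊥ → K ≤ closure A →
      (ClassTwo N ∨ ∀ X : Set Γ, X ⊆ N → SymmFin X → ∃ a, Listing X a) →
      (∀ a ∈ A, EndsMeetCosets A K a) → ∃ a, Listing A a) ∧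
    -- (5) subgroups with two double cosets
    (∀ (Γ : Type u) [Group Γ] [Finite Γ] (A : Set Γ) (K : Subgroup Γ) (a₀ : Γ), SymmFin A →
      closure A = ⊤ → a₀ ∈ A → (∀ g, g ∈ K ∨ ∃ k ∈ K, ∃ k' ∈ K, g = k * a₀ * k') →
      EndsMeetCosets A K a₀ → ∃ a, Listing A a) := by
  refine ⟨?_, ?_, ?_, ?_, ?_⟩
  · rintro n C _ A hn hC ⟨hne, hA, hfin⟩ hr ht
    exact Pool.Agent.H178.CL.reflections hn
      (fun x y z => hC x (mem_top _) y (mem_top _) z (mem_top _)) A hA hfin hr ht
  · rintro n C _ A hn hC ⟨hne, hA, hfin⟩ hc h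
    exact Pool.Agent.H178.CL.wreath hn
      (fun x y z => hC x (mem_top _) y (mem_top _) z (mem_top _)) A hA hfin hc h
  · rintro n Γ _ A N φ hn ⟨hne, hA, hfin⟩ hNn hN hφ hNK hNK' hT hD
    refine Pool.Agent.H178.CL.symm hn A hA hfin φ hφ N hNn
      (Pool.Agent.H178.CL.trc_classTwo N hN) ?_ ?_ hT ?_
    · intro g
      have h1 : g ∈ N ⊔ φ.range := by rw [hNK]; trivial
      have := hNn
      obtain ⟨x, hx, _, ⟨σ, rfl⟩, rfl⟩ := mem_sup_of_normal_left.1 h1
      refine ⟨σ⁻¹, ?_⟩
      rw [map_inv, mul_inv_cancel_right]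
      exact hx
    · intro σ hσ
      have h1 : φ σ ∈ N ⊓ φ.range := mem_inf.2 ⟨hσ, ⟨σ, rfl⟩⟩
      rw [hNK', mem_bot] at h1
      exact hφ (by rw [h1, map_one])
    · intro a ha
      obtain ⟨x, hx, σ, c, rfl, hc, hxc⟩ := hD a ha
      refine ⟨c, hc, σ⁻¹ * c * σ, ?_⟩
      calc (x * φ σ)⁻¹ * φ c * (x * φ σ) = (φ σ)⁻¹ * x⁻¹ * (φ c * x) * φ σ := by group
        _ = (φ σ)⁻¹ * x⁻¹ * (x * φ c) * φ σ := by rw [hxc]
        _ = φ (σ⁻¹ * c * σ) := by rw [map_mul, map_mul, map_inv]; group
  · rintro Γ _ A N K ⟨hne, hA, hfin⟩ hNn hNK hNK' hKA hN hD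
    refine Pool.Agent.H178.CL.lift A hA hne hfin N K hNn ?_ hNK hNK' hKA hD
    rcases hN with hN | hN
    · exact Pool.Agent.H178.CL.trc_classTwo N hN
    · exact Pool.Agent.H178.CL.trc_of_listing N (fun X h1 h2 h3 h4 => hN X h2 ⟨h1, h3, h4⟩)
  · rintro Γ _ _ A K a₀ ⟨hne, hA, hfin⟩ hcl ha₀ hK hD
    exact Pool.Agent.H178.CL.lift2 A hne hcl K a₀ ha₀ hK hD

end Pool.Agent.Results.MP_688fd0_co.ReflectionsAndWreathProducts
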